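import Pool.Agent.Helper54.DI.StmtsB

/-! Closure properties of definable relations. -/

namespace Pool.Agent.Helper53.DI

open Pool.Agent.Helper54.DI Pool.Agent.Helper54.ETR

theorem term_ren_eval (f : ℕ → ℕ) (w : ℕ → ℝ) (t : Term) :
    (t.ren f).eval w = t.eval (fun i => w (f i)) := by
  induction t with
  | zero => rfl
  | one => rfl
  | var i => rfl
  | add s t hs ht => simp only [Term.ren, Term.eval, hs, ht]
  | sub s t hs ht => simp only [Term.ren, Term.eval, hs, ht]
  | mul s t hs ht => simp only [Term.ren, Term.eval, hs, ht]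

theorem form_ren_holds (f : ℕ → ℕ) (w : ℕ → ℝ) (p : Form) :
    (p.ren f).Holds w ↔ p.Holds (fun i => w (f i)) := by
  induction p with
  | lt s t => simp only [Form.ren, Form.Holds, term_ren_eval]
  | le s t => simp only [Form.ren, Form.Holds, term_ren_eval]
  | eq s t => simp only [Form.ren, Form.Holds, term_ren_eval]
  | ge s t => simp only [Form.ren, Form.Holds, term_ren_eval]
  | gt s t => simp only [Form.ren, Form.Holds, term_ren_eval]
  | and p q hp hq => simp only [Form.ren, Form.Holds, hp, hq]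
  | or p q hp hq => simp only [Form.ren, Form.Holds, hp, hq]
  | not p hp => simp only [Form.ren, Form.Holds, hp]

theorem term_ren_ren (f g : ℕ → ℕ) (t : Term) : (t.ren f).ren g = t.ren (fun i => g (f i)) := by
  induction t with
  | zero => rfl
  | one => rfl
  | var i => rfl
  | add s t hs ht => simp only [Term.ren, hs, ht]
  | sub s t hs ht => simp only [Term.ren, hs, ht]
  | mul s t hs ht => simp only [Term.ren, hs, ht]

theorem form_ren_ren (f g : ℕ → ℕ) (p : Form) : (p.ren f).ren g = p.ren (fun i => g (f i)) := by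
  induction p with
  | lt s t => simp only [Form.ren, term_ren_ren]
  | le s t => simp only [Form.ren, term_ren_ren]
  | eq s t => simp only [Form.ren, term_ren_ren]
  | ge s t => simp only [Form.ren, term_ren_ren]
  | gt s t => simp only [Form.ren, term_ren_ren]
  | and p q hp hq => simp only [Form.ren, hp, hq]
  | or p q hp hq => simp only [Form.ren, hp, hq]
  | not p hp => simp only [Form.ren, hp]

theorem cons_ren {Γ : List Form} {χ : Form} (g : ℕ → ℕ) (h : Cons Γ χ) : Cons Γ (χ.ren g) := by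
  induction h with
  | one i => exact Cons.one (g i)
  | add i j k => exact Cons.add (g i) (g j) (g k)
  | le i j => exact Cons.le (g i) (g j)
  | pos f hρ =>
    rw [form_ren_ren]
    exact Cons.pos _ hρ
  | @neg ρ f hρ =>
    have : (Form.not (ρ.ren f)).ren g = Form.not (ρ.ren (fun i => g (f i))) :=
      congrArg Form.not (form_ren_ren f g ρ)
    rw [this]
    exact Cons.neg _ hρ
  | and _ _ hp hq => exact Cons.and hp hq

/-- `χ` together with the equalities `x_a = x_b` for the pairs of a list. -/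
def eqs (χ : Form) : List (ℕ × ℕ) → Form
  | [] => χ
  | ab :: l => Form.and (eqs χ l)
      (Form.and (Form.le (Term.var ab.1) (Term.var ab.2))
        (Form.le (Term.var ab.2) (Term.var ab.1)))

theorem cons_eqs {Γ : List Form} {χ : Form} (h : Cons Γ χ) (l : List (ℕ × ℕ)) :
    Cons Γ (eqs χ l) := by
  induction l with
  | nil => exact h
  | cons ab l ih => exact Cons.and ih (Cons.and (Cons.le _ _) (Cons.le _ _))

theorem eqs_holds (χ : Form) (w : ℕ → ℝ) (l : List (ℕ × ℕ)) :
    (eqs χ l).Holds w ↔ χ.Holds w ∧ ∀ ab ∈ l, w ab.1 = w ab.2 := by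
  induction l with
  | nil => simp [eqs]
  | cons ab l ih =>
    have h1 : (eqs χ (ab :: l)).Holds w ↔
        (eqs χ l).Holds w ∧ (w ab.1 ≤ w ab.2 ∧ w ab.2 ≤ w ab.1) := Iff.rfl
    rw [h1, ih]
    constructor
    · rintro ⟨⟨h2, h3⟩, h4, h5⟩
      refine ⟨h2, ?_⟩
      intro cd hcd
      rcases List.mem_cons.1 hcd with rfl | h
      · exact le_antisymm h4 h5
      · exact h3 cd h
    · rintro ⟨h2, h3⟩
      have h4 : w ab.1 = w ab.2 := h3 ab List.mem_cons_self
      exact ⟨⟨h2, fun cd hcd => h3 cd (List.mem_cons_of_mem _ hcd)⟩, le_of_eq h4,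
        le_of_eq h4.symm⟩

theorem st_PPAND : ST_PPAND := by
  intro Γ ι _ P Q hP hQ
  obtain ⟨e₁, χ₁, he₁, hc₁, h₁⟩ := hP
  obtain ⟨e₂, χ₂, he₂, hc₂, h₂⟩ := hQ
  classical
  let g₂ : ℕ → ℕ := fun n => if h : ∃ i, e₂ i = n then 2 * e₁ h.choose else 2 * n + 1
  have hg : ∀ i, g₂ (e₂ i) = 2 * e₁ i := by
    intro i
    have hex : ∃ j, e₂ j = e₂ i := ⟨i, rfl⟩
    have h1 : hex.choose = i := he₂ hex.choose_spec
    simp only [g₂]
    rw [dif_pos hex, h1]
  refine ⟨fun i => 2 * e₁ i, Form.and (χ₁.ren (fun n => 2 * n)) (χ₂.ren g₂), ?_,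
    Cons.and (cons_ren _ hc₁) (cons_ren _ hc₂), ?_⟩
  · intro i j hij
    apply he₁
    have : 2 * e₁ i = 2 * e₁ j := hij
    omega
  · intro v
    have hH : ∀ w : ℕ → ℝ, (Form.and (χ₁.ren (fun n => 2 * n)) (χ₂.ren g₂)).Holds w ↔
        χ₁.Holds (fun n => w (2 * n)) ∧ χ₂.Holds (fun n => w (g₂ n)) := by
      intro w
      have h3 : (Form.and (χ₁.ren (fun n => 2 * n)) (χ₂.ren g₂)).Holds w ↔
        (χ₁.ren (fun n => 2 * n)).Holds w ∧ (χ₂.ren g₂).Holds w := Iff.rfl
      rw [h3, form_ren_holds, form_ren_holds]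
    constructor
    · rintro ⟨hPv, hQv⟩
      obtain ⟨w₁, hw₁, hχ₁⟩ := (h₁ v).1 hPv
      obtain ⟨w₂, hw₂, hχ₂⟩ := (h₂ v).1 hQv
      let w : ℕ → ℝ := fun n => if n % 2 = 0 then w₁ (n / 2) else w₂ (n / 2)
      have hwe : ∀ n, w (2 * n) = w₁ n := by
        intro n
        simp only [w]
        rw [if_pos (by omega), show 2 * n / 2 = n by omega]
      have hwo : ∀ n, w (2 * n + 1) = w₂ n := by
        intro n
        simp only [w]
        rw [if_neg (by omega), show (2 * n + 1) / 2 = n by omega]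
      refine ⟨w, fun i => by rw [hwe, hw₁], (hH w).2 ⟨?_, ?_⟩⟩
      · have : (fun n => w (2 * n)) = w₁ := funext hwe
        rw [this]
        exact hχ₁
      · have : (fun n => w (g₂ n)) = w₂ := by
          funext n
          by_cases hn : ∃ i, e₂ i = n
          · obtain ⟨i, rfl⟩ := hn
            rw [hg, hwe, hw₁, hw₂]
          · have : g₂ n = 2 * n + 1 := by
              simp only [g₂]
              rw [dif_neg hn]
            rw [this, hwo]
        rw [this]
        exact hχ₂
    · rintro ⟨w, hw, hχ⟩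
      obtain ⟨hχ₁, hχ₂⟩ := (hH w).1 hχ
      refine ⟨(h₁ v).2 ⟨_, fun i => hw i, hχ₁⟩, (h₂ v).2 ⟨_, fun i => ?_, hχ₂⟩⟩
      show w (g₂ (e₂ i)) = v i
      rw [hg]
      exact hw i

/-- an extension of a point on odd places -/
theorem extend_odd {ι : Type} (d : ι → ℕ) (hd : Function.Injective d) (v : ι → ℝ) (w₀ : ℕ → ℝ) :
    ∃ w : ℕ → ℝ, (∀ i, w (2 * d i + 1) = v i) ∧ ∀ n, w (2 * n) = w₀ n := by
  classical
  let e' : ι → ℕ := fun i => 2 * d i + 1
  have he' : Function.Injective e' := by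
    intro i j hij
    apply hd
    have : 2 * d i + 1 = 2 * d j + 1 := hij
    omega
  refine ⟨Function.extend e' v (fun n => w₀ (n / 2)), fun i => he'.extend_apply v _ i, ?_⟩
  intro n
  rw [Function.extend_apply' v _ _ ?_]
  · show w₀ (2 * n / 2) = w₀ n
    rw [show 2 * n / 2 = n by omega]
  · rintro ⟨i, hi⟩
    have : 2 * d i + 1 = 2 * n := hi
    omega

theorem st_PPRE : ST_PPRE := by
  intro Γ ι κ _ _ P g hP
  obtain ⟨e, χ, he, hc, h⟩ := hP
  let d : ι → ℕ := fun i => (Fintype.equivFin ι i : ℕ)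
  have hd : Function.Injective d := by
    intro i j hij
    exact (Fintype.equivFin ι).injective (Fin.ext hij)
  let l : List (ℕ × ℕ) := (Finset.univ : Finset κ).toList.map
    (fun a => (2 * e a, 2 * d (g a) + 1))
  refine ⟨fun i => 2 * d i + 1, eqs (χ.ren (fun n => 2 * n)) l, ?_, cons_eqs (cons_ren _ hc) l, ?_⟩
  · intro i j hij
    apply hd
    have : 2 * d i + 1 = 2 * d j + 1 := hij
    omega
  · intro v
    have hl : ∀ w : ℕ → ℝ, (∀ ab ∈ l, w ab.1 = w ab.2) ↔
        ∀ a : κ, w (2 * e a) = w (2 * d (g a) + 1) := by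
      intro w
      constructor
      · intro h1 a
        exact h1 (2 * e a, 2 * d (g a) + 1)
          (List.mem_map.2 ⟨a, Finset.mem_toList.2 (Finset.mem_univ a), rfl⟩)
      · intro h1 ab hab
        obtain ⟨a, -, rfl⟩ := List.mem_map.1 hab
        exact h1 a
    constructor
    · intro hPv
      obtain ⟨w₀, hw₀, hχ⟩ := (h _).1 hPv
      obtain ⟨w, hw1, hw2⟩ := extend_odd d hd v w₀
      refine ⟨w, hw1, ?_⟩
      rw [eqs_holds, form_ren_holds, hl]
      refine ⟨?_, ?_⟩
      · have : (fun n => w (2 * n)) = w₀ := funext hw2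
        rw [this]
        exact hχ
      · intro a
        rw [hw1, hw2]
        exact hw₀ a
    · rintro ⟨w, hw, hχ⟩
      rw [eqs_holds, form_ren_holds, hl] at hχ
      refine (h _).2 ⟨fun n => w (2 * n), fun a => ?_, hχ.1⟩
      show w (2 * e a) = v (g a)
      rw [hχ.2 a]
      exact hw (g a)

theorem st_PPEX : ST_PPEX := by
  intro Γ ι κ _ _ P hP
  obtain ⟨e, χ, he, hc, h⟩ := hP
  refine ⟨fun i => e (Sum.inl i), χ, ?_, hc, ?_⟩
  · intro i j hij
    exact Sum.inl_injective (he hij)
  · intro v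
    constructor
    · rintro ⟨u, hu⟩
      obtain ⟨w, hw, hχ⟩ := (h _).1 hu
      exact ⟨w, fun i => hw (Sum.inl i), hχ⟩
    · rintro ⟨w, hw, hχ⟩
      refine ⟨fun j => w (e (Sum.inr j)), (h _).2 ⟨w, ?_, hχ⟩⟩
      intro s
      rcases s with i | j
      · exact hw i
      · rfl

theorem st_PPTRUE : ST_PPTRUE := by
  intro Γ ι _
  let d : ι → ℕ := fun i => (Fintype.equivFin ι i : ℕ)
  have hd : Function.Injective d := by
    intro i j hij
    exact (Fintype.equivFin ι).injective (Fin.ext hij)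
  refine ⟨d, Form.le (Term.var 0) (Term.var 0), hd, Cons.le 0 0, ?_⟩
  intro v
  constructor
  · intro _
    exact ⟨Function.extend d v 0, fun i => hd.extend_apply v _ i, le_refl _⟩
  · intro _
    trivial

end Pool.Agent.Helper53.DI
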